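import Pool.Agent.R130.Theon.UC
import Pool.Agent.R130.Theon.Z4

/-!
# Separation of `UCouple[ℓ]` from `Independence[ℓ']` for all `1 ≤ ℓ' < ℓ`

The definitions (Euclidean structures, arrays, laws, couplings, `UCouple`, `Independence`) are in
`Pool/Agent/R130/Theon/Defs.lean`.
-/

open MeasureTheory ProbabilityTheory Pool.Agent.R130.Theon

namespace Pool.Agent.Results.MP_e98621_co.Separation

/-- The axiom `∀ x₁ … x_k, P(x₁, …, x_k) → x_i ≠ x_j`. -/
def distinctAx {L : FirstOrder.Language.{0, 0}} {k : ℕ} (P : L.Relations k) (i j : Fin k) : L.Sentence :=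
  (((P.boundedFormula fun m => (FirstOrder.Language.Term.var (Sum.inr m) : L.Term (Empty ⊕ Fin k))).imp
    (FirstOrder.Language.Term.bdEqual (FirstOrder.Language.Term.var (Sum.inr i)) (FirstOrder.Language.Term.var (Sum.inr j))).not :
      L.BoundedFormula Empty k)).alls

/-- `T` contains, for every relation symbol `P` and all `i ≠ j`, the axiom that `P` holds only on
tuples with distinct `i`-th and `j`-th entries. -/
def ContainsDistinct {L : FirstOrder.Language.{0, 0}} (T : L.Theory) : Prop :=
  ∀ (k : ℕ) (P : L.Relations k) (i j : Fin k), i ≠ j → distinctAx P i j ∈ T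

/-- The theory of all the axioms `distinctAx`. -/
def distinctTheory (L : FirstOrder.Language.{0, 0}) : L.Theory :=
  {σ | ∃ (k : ℕ) (P : L.Relations k) (i j : Fin k), i ≠ j ∧ σ = distinctAx P i j}

lemma isUniversal_alls {L : FirstOrder.Language.{0, 0}} : ∀ {k : ℕ} (φ : L.BoundedFormula Empty k),
    φ.IsUniversal → φ.alls.IsUniversal
  | 0, _, h => h
  | _ + 1, φ, h => isUniversal_alls φ.all h.all

instance (L : FirstOrder.Language.{0, 0}) : (distinctTheory L).IsUniversal := by
  refine ⟨?_⟩
  rintro σ ⟨k, P, i, j, hij, rfl⟩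
  apply isUniversal_alls
  apply FirstOrder.Language.BoundedFormula.IsUniversal.of_isQF
  apply FirstOrder.Language.BoundedFormula.IsQF.imp
  · exact (FirstOrder.Language.BoundedFormula.IsAtomic.rel _ _).isQF
  · exact (FirstOrder.Language.BoundedFormula.IsAtomic.equal _ _).isQF.not

lemma models_distinct {L : FirstOrder.Language.{0, 0}} [L.IsRelational] {X : Type} [MeasurableSpace X]
    (N : EucStr L X) (θ : Idx ℕ → X) : (N.arr θ).Models (distinctTheory L) := by
  let _ := Str.toStructure (N.arr θ)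
  refine FirstOrder.Language.Theory.Model.mk ?_
  rintro σ ⟨k, P, i, j, hij, rfl⟩
  change FirstOrder.Language.Sentence.Realize ℕ (distinctAx P i j)
  unfold distinctAx FirstOrder.Language.Sentence.Realize
  rw [FirstOrder.Language.BoundedFormula.realize_alls]
  intro xs
  rw [FirstOrder.Language.BoundedFormula.realize_imp, FirstOrder.Language.BoundedFormula.realize_not,
    FirstOrder.Language.BoundedFormula.realize_bdEqual, FirstOrder.Language.BoundedFormula.realize_rel]
  intro h
  obtain ⟨hinj, _⟩ := h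
  intro he
  simp at he
  exact hij (hinj (by simpa using he))

theorem result (ℓ' ℓ : ℕ) (h1 : 1 ≤ ℓ') (h2 : ℓ' < ℓ) :
    ∃ (L : FirstOrder.Language.{0, 0}) (_ : L.IsRelational) (_ : Finite (Σ n, L.Relations n))
      (T : L.Theory) (_ : T.IsUniversal) (_ : ContainsDistinct T) (φ : Measure (Str L)),
      IsLimit T φ ∧ UCouple T φ ℓ ∧ ¬ Independence T φ ℓ' := by
  refine ⟨Sep.lang (ℓ' + 1) (ℓ - ℓ'), inferInstance, inferInstance, distinctTheory _,
    inferInstance, fun k P i j hij => ⟨k, P, i, j, hij, rfl⟩,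
    (Sep.NN (ℓ' + 1) (ℓ - ℓ')).law (Sep.mu (ℓ' + 1) (ℓ - ℓ')), ?_, ?_, ?_⟩
  · exact ⟨Sep.XX (ℓ' + 1) (ℓ - ℓ'), inferInstance, inferInstance, Sep.mu _ _, inferInstance,
      Sep.NN _ _, Filter.Eventually.of_forall fun θ => models_distinct _ θ, rfl⟩
  · exact uCouple_of_indep _ (Sep.mu _ _) (Sep.NN _ _) ℓ
      (Sep.indep_NN _ _ ℓ (by omega) (by omega))
  · have := Sep.not_independence (n := ℓ' + 1) (c := ℓ - ℓ') (by omega) (distinctTheory _) _
      (Sep.good_law _ _)
    simpa using this

end Pool.Agent.Results.MP_e98621_co.Separation
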